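import Pool.Agent.K3h74.SZ.Stm

/-!
Project SZ (helper74), brick TORA: admissible families exist.
-/

set_option autoImplicit false

namespace Pool.Agent.K3h55.SZ

open Polynomial Pool.Agent.K3h74.SZ

/-- `X² - τ` -/
noncomputable def q0 : ℤ[X][X] := X ^ 2 - C X

/-- `X² - 2 X + τ` -/
noncomputable def q1 : ℤ[X][X] := X ^ 2 - 2 * X + C X

/-- `X² - 2 τ X + τ` -/
noncomputable def qt : ℤ[X][X] := X ^ 2 - C (2 * X) * X + C X

theorem q0_map (t : ℂ) : q0.map (sp t) = X ^ 2 - C t := by
  simp [q0, sp_X]

theorem q1_map (t : ℂ) : q1.map (sp t) = X ^ 2 - 2 * X + C t := by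
  simp [q1, sp_X]

theorem qt_map (t : ℂ) : qt.map (sp t) = X ^ 2 - C (2 * t) * X + C t := by
  have h2 : (sp t) 2 = 2 := map_ofNat _ 2
  unfold qt
  rw [Polynomial.map_add, Polynomial.map_sub, Polynomial.map_mul, Polynomial.map_pow, map_X,
    map_C, map_C, map_mul, sp_X, h2]

theorem q0_eval (t x : ℂ) : (q0.map (sp t)).eval x = x ^ 2 - t := by
  rw [q0_map]; simp

theorem q1_eval (t x : ℂ) : (q1.map (sp t)).eval x = x ^ 2 - 2 * x + t := by
  rw [q1_map]; simp

theorem qt_eval (t x : ℂ) : (qt.map (sp t)).eval x = x ^ 2 - 2 * t * x + t := by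
  rw [qt_map]; simp

theorem q0_deriv (t x : ℂ) : (q0.map (sp t)).derivative.eval x = 2 * x := by
  rw [q0_map]; simp; norm_num

theorem q1_deriv (t x : ℂ) : (q1.map (sp t)).derivative.eval x = 2 * x - 2 := by
  rw [q1_map]; simp; norm_num

theorem qt_deriv (t x : ℂ) : (qt.map (sp t)).derivative.eval x = 2 * x - 2 * t := by
  rw [qt_map]; simp; norm_num

theorem good_q0 : Good 1 q0 where
  monic := monic_X_pow_sub_C X two_ne_zero
  deg := natDegree_X_pow_sub_C
  zero := Or.inr (by simp [q0])
  simple t h0 h1 x hx := by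
    rw [q0_eval] at hx
    rw [q0_deriv]
    intro h
    apply h0
    have : x = 0 := by linear_combination h / 2
    rw [this] at hx
    linear_combination -hx
  ne0 t h0 h1 := by
    rw [q0_eval]
    intro h
    apply h0
    linear_combination -h
  ne1 t h0 h1 := by
    rw [q0_eval]
    intro h
    apply h1
    linear_combination -h
  net t h0 h1 := by
    rw [q0_eval]
    intro h
    have h2 : t * (t - 1) = 0 := by linear_combination h
    rcases mul_eq_zero.1 h2 with h3 | h3
    · exact h0 h3
    · exact h1 (by linear_combination h3)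

theorem good_q1 : Good 1 q1 where
  monic := by
    unfold q1
    monicity!
  deg := by
    unfold q1
    compute_degree!
  zero := Or.inl (by simp [q1])
  simple t h0 h1 x hx := by
    rw [q1_eval] at hx
    rw [q1_deriv]
    intro h
    apply h1
    have : x = 1 := by linear_combination h / 2
    rw [this] at hx
    linear_combination hx
  ne0 t h0 h1 := by
    rw [q1_eval]
    intro h
    apply h0
    linear_combination h
  ne1 t h0 h1 := by
    rw [q1_eval]
    intro h
    apply h1
    linear_combination h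
  net t h0 h1 := by
    rw [q1_eval]
    intro h
    have h2 : t * (t - 1) = 0 := by linear_combination h
    rcases mul_eq_zero.1 h2 with h3 | h3
    · exact h0 h3
    · exact h1 (by linear_combination h3)

theorem good_qt : Good 1 qt where
  monic := by
    unfold qt
    monicity!
  deg := by
    unfold qt
    compute_degree!
  zero := Or.inl (by simp [qt])
  simple t h0 h1 x hx := by
    rw [qt_eval] at hx
    rw [qt_deriv]
    intro h
    have : x = t := by linear_combination h / 2
    rw [this] at hx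
    have h2 : t * (t - 1) = 0 := by linear_combination -hx
    rcases mul_eq_zero.1 h2 with h3 | h3
    · exact h0 h3
    · exact h1 (by linear_combination h3)
  ne0 t h0 h1 := by
    rw [qt_eval]
    intro h
    apply h0
    linear_combination h
  ne1 t h0 h1 := by
    rw [qt_eval]
    intro h
    apply h1
    linear_combination -h
  net t h0 h1 := by
    rw [qt_eval]
    intro h
    have h2 : t * (t - 1) = 0 := by linear_combination -h
    rcases mul_eq_zero.1 h2 with h3 | h3
    · exact h0 h3
    · exact h1 (by linear_combination h3)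

theorem good_one : Good 0 1 where
  monic := monic_one
  deg := by simp
  zero := Or.inl (by simp)
  simple t h0 h1 x hx := by
    rw [Polynomial.map_one, eval_one] at hx
    exact absurd hx one_ne_zero
  ne0 t h0 h1 := by rw [Polynomial.map_one, eval_one]; exact one_ne_zero
  ne1 t h0 h1 := by rw [Polynomial.map_one, eval_one]; exact one_ne_zero
  net t h0 h1 := by rw [Polynomial.map_one, eval_one]; exact one_ne_zero

/-- simple roots of products without common roots -/
theorem simple_mul {P Q : ℂ[X]} (hP : ∀ x, P.eval x = 0 → P.derivative.eval x ≠ 0)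
    (hQ : ∀ x, Q.eval x = 0 → Q.derivative.eval x ≠ 0) (h : ∀ x, P.eval x = 0 → Q.eval x ≠ 0) :
    ∀ x, (P * Q).eval x = 0 → (P * Q).derivative.eval x ≠ 0 := by
  intro x hx
  rw [eval_mul] at hx
  rw [derivative_mul, eval_add, eval_mul, eval_mul]
  by_cases hPx : P.eval x = 0
  · rw [hPx, zero_mul, add_zero]
    exact mul_ne_zero (hP x hPx) (h x hPx)
  · have hQx : Q.eval x = 0 := (mul_eq_zero.1 hx).resolve_left hPx
    rw [hQx, mul_zero, zero_add]
    exact mul_ne_zero hPx (hQ x hQx)

theorem good_mul {a b : ℕ} {q R : ℤ[X][X]} (hq : Good b q) (hR : Good a R)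
    (hne : ∀ t : ℂ, t ≠ 0 → t ≠ 1 → ∀ x : ℂ, (q.map (sp t)).eval x = 0 →
      (R.map (sp t)).eval x ≠ 0) : Good (a + b) (q * R) where
  monic := hq.monic.mul hR.monic
  deg := by
    rw [hq.monic.natDegree_mul hR.monic, hq.deg, hR.deg]
    ring
  zero := by
    rw [mul_coeff_zero]
    rcases hq.zero with h1 | h1 <;> rcases hR.zero with h2 | h2 <;> rw [h1, h2]
    · left; ring
    · right; ring
    · right; ring
    · left; ring
  simple t h0 h1 := by
    rw [Polynomial.map_mul]
    exact simple_mul (hq.simple t h0 h1) (hR.simple t h0 h1) (hne t h0 h1)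
  ne0 t h0 h1 := by
    rw [Polynomial.map_mul, eval_mul]
    exact mul_ne_zero (hq.ne0 t h0 h1) (hR.ne0 t h0 h1)
  ne1 t h0 h1 := by
    rw [Polynomial.map_mul, eval_mul]
    exact mul_ne_zero (hq.ne1 t h0 h1) (hR.ne1 t h0 h1)
  net t h0 h1 := by
    rw [Polynomial.map_mul, eval_mul]
    exact mul_ne_zero (hq.net t h0 h1) (hR.net t h0 h1)

theorem exists_good (h : S_TORH) : ∀ m : ℕ, ∃ R, Good m R := by
  intro m
  induction m using Nat.strong_induction_on with
  | _ m ih =>
    rcases Nat.eq_zero_or_pos m with rfl | hm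
    · exact ⟨1, good_one⟩
    obtain ⟨R, hR⟩ := ih (m / 4) (by omega)
    obtain ⟨hH, hroots⟩ := h _ R hR
    set H := homP (2 * (m / 4)) R with hHdef
    have e0 : ∀ t : ℂ, t ≠ 0 → t ≠ 1 → ∀ x : ℂ, (q0.map (sp t)).eval x = 0 →
        (H.map (sp t)).eval x ≠ 0 := by
      intro t h0 h1 x hx
      rw [q0_eval] at hx
      exact hroots t h0 h1 x (Or.inl (by linear_combination hx))
    have e1 : ∀ t : ℂ, t ≠ 0 → t ≠ 1 → ∀ x : ℂ, (q1.map (sp t)).eval x = 0 →
        (H.map (sp t)).eval x ≠ 0 := by
      intro t h0 h1 x hx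
      rw [q1_eval] at hx
      exact hroots t h0 h1 x (Or.inr (Or.inl hx))
    have et : ∀ t : ℂ, t ≠ 0 → t ≠ 1 → ∀ x : ℂ, (qt.map (sp t)).eval x = 0 →
        (H.map (sp t)).eval x ≠ 0 := by
      intro t h0 h1 x hx
      rw [qt_eval] at hx
      exact hroots t h0 h1 x (Or.inr (Or.inr hx))
    have e10 : ∀ t : ℂ, t ≠ 0 → t ≠ 1 → ∀ x : ℂ, (q1.map (sp t)).eval x = 0 →
        (q0.map (sp t)).eval x ≠ 0 := by
      intro t h0 h1 x hx hx'
      rw [q1_eval] at hx
      rw [q0_eval] at hx'
      have h2 : x = t := by linear_combination (hx' - hx) / 2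
      rw [h2] at hx'
      have h3 : t * (t - 1) = 0 := by linear_combination hx'
      rcases mul_eq_zero.1 h3 with h4 | h4
      · exact h0 h4
      · exact h1 (by linear_combination h4)
    have et0 : ∀ t : ℂ, t ≠ 0 → t ≠ 1 → ∀ x : ℂ, (qt.map (sp t)).eval x = 0 →
        (q0.map (sp t)).eval x ≠ 0 := by
      intro t h0 h1 x hx hx'
      rw [qt_eval] at hx
      rw [q0_eval] at hx'
      have h2 : t * (x - 1) = 0 := by linear_combination (hx' - hx) / 2
      have h3 : x = 1 := by
        rcases mul_eq_zero.1 h2 with h4 | h4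
        · exact absurd h4 h0
        · linear_combination h4
      rw [h3] at hx'
      exact h1 (by linear_combination -hx')
    have et1 : ∀ t : ℂ, t ≠ 0 → t ≠ 1 → ∀ x : ℂ, (qt.map (sp t)).eval x = 0 →
        (q1.map (sp t)).eval x ≠ 0 := by
      intro t h0 h1 x hx hx'
      rw [qt_eval] at hx
      rw [q1_eval] at hx'
      have h2 : x * (t - 1) = 0 := by linear_combination (hx' - hx) / 2
      have h3 : x = 0 := by
        rcases mul_eq_zero.1 h2 with h4 | h4
        · exact h4
        · exact absurd (by linear_combination h4) h1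
      rw [h3] at hx'
      exact h0 (by linear_combination hx')
    have g0 := good_mul good_q0 hH e0
    have g1 := good_mul good_q1 g0 (fun t h0 h1 x hx => by
      rw [Polynomial.map_mul, eval_mul]
      exact mul_ne_zero (e10 t h0 h1 x hx) (e1 t h0 h1 x hx))
    have g2 := good_mul good_qt g1 (fun t h0 h1 x hx => by
      rw [Polynomial.map_mul, eval_mul, Polynomial.map_mul, eval_mul]
      exact mul_ne_zero (et1 t h0 h1 x hx) (mul_ne_zero (et0 t h0 h1 x hx) (et t h0 h1 x hx)))
    have hb : m % 4 < 4 := Nat.mod_lt _ (by norm_num)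
    have hm4 := Nat.div_add_mod m 4
    have hcases : m % 4 = 0 ∨ m % 4 = 1 ∨ m % 4 = 2 ∨ m % 4 = 3 := by omega
    rcases hcases with hb' | hb' | hb' | hb'
    · rw [show 4 * (m / 4) = m by omega] at hH
      exact ⟨_, hH⟩
    · rw [show 4 * (m / 4) + 1 = m by omega] at g0
      exact ⟨_, g0⟩
    · rw [show 4 * (m / 4) + 1 + 1 = m by omega] at g1
      exact ⟨_, g1⟩
    · rw [show 4 * (m / 4) + 1 + 1 + 1 = m by omega] at g2
      exact ⟨_, g2⟩

theorem separable_of_simple {P : ℂ[X]} (hP : ∀ x, P.eval x = 0 → P.derivative.eval x ≠ 0) :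
    P.Separable := by
  unfold Polynomial.Separable
  rw [Polynomial.isCoprime_iff_aeval_ne_zero_of_isAlgClosed ℂ ℂ]
  intro x
  rw [coe_aeval_eq_eval]
  by_cases h : P.eval x = 0
  · exact Or.inr (hP x h)
  · exact Or.inl h

/-- **TORA** -/
theorem t_TORA : S_TORH → S_TOR := by
  intro h k _
  obtain ⟨m, hm | hm⟩ := Nat.even_or_odd' k
  · obtain ⟨R, hR⟩ := exists_good h m
    refine ⟨R, ?_⟩
    rw [show (k + 1) / 2 = m by omega, hm]
    exact ⟨hR.monic, hR.deg, hR.zero, fun t h0 h1 => separable_of_simple (hR.simple t h0 h1),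
      hR.ne1⟩
  · obtain ⟨R, hR⟩ := exists_good h m
    refine ⟨(X - C X) * R, ?_⟩
    rw [show (k + 1) / 2 = m + 1 by omega, hm]
    have hl : ∀ t : ℂ, ((X - C X : ℤ[X][X]) * R).map (sp t) = (X - C t) * R.map (sp t) := by
      intro t
      rw [Polynomial.map_mul, Polynomial.map_sub, map_X, map_C, sp_X]
    refine ⟨(monic_X_sub_C _).mul hR.monic, ?_, ?_, fun t h0 h1 => ?_, fun t h0 h1 => ?_⟩
    · rw [(monic_X_sub_C _).natDegree_mul hR.monic, natDegree_X_sub_C, hR.deg]
      ring
    · rw [mul_coeff_zero, coeff_sub, coeff_X_zero, coeff_C_zero, zero_sub]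
      rcases hR.zero with h2 | h2 <;> rw [h2]
      · right; ring
      · left; ring
    · rw [hl]
      apply separable_of_simple
      refine simple_mul (fun x _ => ?_) (hR.simple t h0 h1) (fun x hx => ?_)
      · simp
      · rw [eval_sub, eval_X, eval_C] at hx
        rw [show x = t by linear_combination hx]
        exact hR.net t h0 h1
    · rw [hl, eval_mul, eval_sub, eval_X, eval_C]
      exact mul_ne_zero (fun h2 => h1 (by linear_combination -h2)) (hR.ne1 t h0 h1)

end Pool.Agent.K3h55.SZ
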